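import Pool.Agent.Helper23.LC.Prob

/-!
# Cycles in sets of reals without relations are rigid
-/

set_option autoImplicit false

open Finset

namespace Pool.Agent.Helper23.RD

/-- `φ` is a `G`-rigid injection -/
def Rigid (V : Finset ℝ) (G : SimpleGraph V) (φ : V → ℝ) : Prop :=
  Function.Injective φ ∧ ∀ u v, G.Adj u v → |φ u - φ v| = |(u : ℝ) - v|

/-- `U` is reconstructible -/
def Rec (V : Finset ℝ) (G : SimpleGraph V) (U : Finset V) : Prop :=
  ∀ φ, Rigid V G φ → ∀ u ∈ U, ∀ v ∈ U, |φ u - φ v| = |(u : ℝ) - v|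

/-- no two different subsets of the same size have the same sum -/
def NoRel (V : Finset ℝ) : Prop :=
  ∀ A B : Finset ℝ, A ⊆ V → B ⊆ V → #A = #B → ∑ a ∈ A, a = ∑ b ∈ B, b → A = B

theorem rec_cycle {V : Finset ℝ} (hV : NoRel V) (G : SimpleGraph V) {m : ℕ} [NeZero m]
    (x : ZMod m → V) (hx : Function.Injective x) (hadj : ∀ i, G.Adj (x i) (x (i + 1))) :
    Rec V G (univ.image x) := by
  classical
  intro φ hφ
  have h1 : ∀ i : ZMod m, ∃ s : ℝ, (s = 1 ∨ s = -1) ∧
      φ (x (i + 1)) - φ (x i) = s * ((x (i + 1) : ℝ) - x i) := by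
    intro i
    have h2 := hφ.2 _ _ (hadj i)
    rcases abs_eq_abs.mp h2 with h3 | h3
    · exact ⟨1, Or.inl rfl, by linarith⟩
    · exact ⟨-1, Or.inr rfl, by linarith⟩
  choose σ hσ1 hσ2 using h1
  -- the relation
  have hrel : ∑ i : ZMod m, (σ (i - 1) - σ i) * (x i : ℝ) = 0 := by
    have h3 : ∑ i : ZMod m, (φ (x (i + 1)) - φ (x i)) = 0 := by
      rw [Finset.sum_sub_distrib, sub_eq_zero]
      exact Equiv.sum_comp (Equiv.addRight (1 : ZMod m)) (fun i => φ (x i))
    simp_rw [hσ2] at h3
    have h4 : ∑ i : ZMod m, σ i * (x (i + 1) : ℝ) = ∑ i : ZMod m, σ (i - 1) * (x i : ℝ) := by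
      rw [← Equiv.sum_comp (Equiv.addRight (1 : ZMod m)) (fun i => σ (i - 1) * (x i : ℝ))]
      simp
    simp_rw [mul_sub, Finset.sum_sub_distrib] at h3
    simp_rw [sub_mul, Finset.sum_sub_distrib]
    rw [← h4]
    exact h3
  have hcount : ∑ i : ZMod m, (σ (i - 1) - σ i) = 0 := by
    rw [Finset.sum_sub_distrib, sub_eq_zero]
    exact Equiv.sum_comp (Equiv.subRight (1 : ZMod m)) σ
  let P : Finset (ZMod m) := univ.filter (fun i => σ (i - 1) = 1 ∧ σ i = -1)
  let N : Finset (ZMod m) := univ.filter (fun i => σ (i - 1) = -1 ∧ σ i = 1)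
  have hval : ∀ i : ZMod m, σ (i - 1) - σ i = (if i ∈ P then 2 else 0) - (if i ∈ N then 2 else 0) := by
    intro i
    simp only [P, N, Finset.mem_filter, mem_univ, true_and]
    rcases hσ1 (i - 1) with h3 | h3 <;> rcases hσ1 i with h4 | h4 <;> rw [h3, h4] <;> norm_num
  have hsum : ∀ f : ZMod m → ℝ, ∑ i : ZMod m, (σ (i - 1) - σ i) * f i
      = 2 * (∑ i ∈ P, f i) - 2 * ∑ i ∈ N, f i := by
    intro f
    simp_rw [hval, sub_mul, Finset.sum_sub_distrib, ite_mul, zero_mul]
    rw [Finset.sum_ite_mem, Finset.sum_ite_mem, Finset.univ_inter, Finset.univ_inter,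
      ← Finset.mul_sum, ← Finset.mul_sum]
  have hreal : Function.Injective (fun i : ZMod m => (x i : ℝ)) :=
    Subtype.val_injective.comp hx
  have hPN : P.image (fun i => (x i : ℝ)) = N.image (fun i => (x i : ℝ)) := by
    apply hV
    · intro z hz
      obtain ⟨i, -, rfl⟩ := Finset.mem_image.mp hz
      exact (x i).2
    · intro z hz
      obtain ⟨i, -, rfl⟩ := Finset.mem_image.mp hz
      exact (x i).2
    · rw [Finset.card_image_of_injective _ hreal, Finset.card_image_of_injective _ hreal]
      have h3 := hsum (fun _ => 1)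
      simp only [mul_one, Finset.sum_const, nsmul_eq_mul] at h3
      rw [hcount] at h3
      have h4 : (#P : ℝ) = #N := by linarith
      exact_mod_cast h4
    · rw [Finset.sum_image (fun a _ b _ h => hreal h), Finset.sum_image (fun a _ b _ h => hreal h)]
      have h3 := hsum (fun i => (x i : ℝ))
      rw [hrel] at h3
      linarith
  have hPN' : P = N := Finset.image_injective hreal hPN
  have hconst : ∀ i : ZMod m, σ (i - 1) = σ i := by
    intro i
    have h3 : i ∉ P := by
      intro hP
      have hN : i ∈ N := hPN' ▸ hP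
      simp only [P, N, Finset.mem_filter, mem_univ, true_and] at hP hN
      linarith [hP.1, hN.1]
    have h4 : i ∉ N := fun hN => h3 (hPN' ▸ hN)
    have h5 := hval i
    rw [if_neg h3, if_neg h4, sub_zero] at h5
    linarith
  have hall : ∀ n : ℕ, σ (n : ZMod m) = σ 0 := by
    intro n
    induction n with
    | zero => simp
    | succ n ih =>
      have h3 := hconst ((n : ZMod m) + 1)
      rw [add_sub_cancel_right] at h3
      push_cast
      rw [← h3, ih]
  have hdiff : ∀ n : ℕ, φ (x n) - φ (x 0) = σ 0 * ((x n : ℝ) - x 0) := by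
    intro n
    induction n with
    | zero => simp
    | succ n ih =>
      have h3 := hσ2 (n : ZMod m)
      rw [hall n] at h3
      push_cast
      linear_combination ih + h3
  have hd : ∀ i : ZMod m, φ (x i) - φ (x 0) = σ 0 * ((x i : ℝ) - x 0) := by
    intro i
    have h3 := hdiff i.val
    rwa [ZMod.natCast_zmod_val] at h3
  intro u hu v hv
  obtain ⟨i, -, rfl⟩ := Finset.mem_image.mp hu
  obtain ⟨j, -, rfl⟩ := Finset.mem_image.mp hv
  have h3 : φ (x i) - φ (x j) = σ 0 * ((x i : ℝ) - x j) := by
    linear_combination hd i - hd j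
  rw [h3, abs_mul]
  rcases hσ1 0 with h | h <;> rw [h] <;> simp

theorem rec_list {V : Finset ℝ} (hV : NoRel V) (G : SimpleGraph V) (l : List V)
    (h3 : 3 ≤ l.length) (hnd : l.Nodup) (hch : l.IsChain G.Adj)
    (hcl : G.Adj (l[l.length - 1]'(by omega)) (l[0]'(by omega))) : Rec V G l.toFinset := by
  classical
  obtain ⟨m, hm⟩ : ∃ m, m = l.length := ⟨_, rfl⟩
  haveI : NeZero m := ⟨by omega⟩
  have hlt : ∀ i : ZMod m, i.val < l.length := fun i => by rw [← hm]; exact ZMod.val_lt i
  let x : ZMod m → V := fun i => l[i.val]'(hlt i)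
  have hx : Function.Injective x := by
    intro i j hij
    have h4 : i.val = j.val := (List.Nodup.getElem_inj_iff hnd).mp hij
    exact ZMod.val_injective m h4
  have hadj : ∀ i, G.Adj (x i) (x (i + 1)) := by
    intro i
    by_cases hi : i.val + 1 < m
    · have h4 : (i + 1).val = i.val + 1 := by
        haveI : Fact (1 < m) := ⟨by omega⟩
        rw [ZMod.val_add_of_lt]
        · rw [ZMod.val_one]
        · rw [ZMod.val_one]; exact hi
      have h5 := List.isChain_iff_getElem.mp hch i.val (by omega)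
      have h6 : x (i + 1) = l[i.val + 1]'(by omega) := by
        simp only [x, h4]
      rw [h6]
      exact h5
    · have h4 : i.val = m - 1 := by have := ZMod.val_lt i; omega
      have h5 : i + 1 = 0 := by
        have h6 : ((i.val + 1 : ℕ) : ZMod m) = 0 := by
          rw [h4, Nat.sub_add_cancel (by omega)]
          exact ZMod.natCast_self m
        push_cast at h6
        rwa [ZMod.natCast_zmod_val] at h6
      have h6 : x (i + 1) = l[0]'(by omega) := by
        simp only [x, h5, ZMod.val_zero]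
      have h7 : x i = l[l.length - 1]'(by omega) := by
        simp only [x, h4, hm]
      rw [h6, h7]
      exact hcl
  have h8 := rec_cycle hV G x hx hadj
  intro φ hφ u hu v hv
  have hmem : ∀ w ∈ l.toFinset, w ∈ univ.image x := by
    intro w hw
    rw [List.mem_toFinset] at hw
    obtain ⟨k, hk, rfl⟩ := List.getElem_of_mem hw
    rw [Finset.mem_image]
    refine ⟨(k : ZMod m), mem_univ _, ?_⟩
    have h9 : ((k : ZMod m)).val = k := ZMod.val_natCast_of_lt (by omega)
    simp only [x, h9]
  exact h8 φ hφ u (hmem u hu) v (hmem v hv)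

end Pool.Agent.Helper23.RD
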