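import Pool.Agent.Helper23.RD.Dfs
import Pool.Agent.Helper23.RD.Rigid

/-!
# A long path and a second round of edges give a large reconstructible set
-/

set_option autoImplicit false

open Finset

namespace Pool.Agent.Helper23.RD

open Pool.Agent.Helper23.LC

/-- there is a reconstructible set with at least `ℓ` elements -/
def HasRec (V : Finset ℝ) (ℓ : ℕ) (Γ : Finset (Sym2 V)) : Prop :=
  ∃ U : Finset V, Rec V (SimpleGraph.fromEdgeSet (Γ : Set (Sym2 V))) U ∧ ℓ ≤ #U

open Classical in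
/-- indicator of having no large reconstructible set -/
noncomputable def noRec (V : Finset ℝ) (ℓ : ℕ) (Γ : Finset (Sym2 V)) : ℝ :=
  if HasRec V ℓ Γ then 0 else 1

theorem noRec_le_one (V : Finset ℝ) (ℓ : ℕ) (Γ : Finset (Sym2 V)) : noRec V ℓ Γ ≤ 1 := by
  unfold noRec; split_ifs <;> norm_num

theorem noRec_of {V : Finset ℝ} {ℓ : ℕ} {Γ : Finset (Sym2 V)} (h : HasRec V ℓ Γ) :
    noRec V ℓ Γ = 0 := by
  unfold noRec; rw [if_pos h]

/-- a long back edge closes a long cycle -/
theorem rec_of_hit {V : Finset ℝ} (hV : NoRel V) {L k ℓ : ℕ} (hk : 2 * k + 1 ≤ L)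
    (hℓ : ℓ + 2 * k ≤ L + 2) {S1 S2 : Finset (Sym2 V)} {l : List V} (hl : l.length = L)
    (hnd : l.Nodup) (hch : l.IsChain (fun a b => s(a, b) ∈ S1)) {i j : ℕ} (hi : i < k) (hj : j < k)
    (he : s(l[i]'(by omega), l[L - 1 - j]'(by omega)) ∈ S2) : HasRec V ℓ (S1 ∪ S2) := by
  classical
  obtain ⟨m, hm⟩ : ∃ m, m = L - j - i := ⟨_, rfl⟩
  have hlen : ((l.drop i).take m).length = m := by
    rw [List.length_take, List.length_drop, hl]
    omega
  have hnd' : ((l.drop i).take m).Nodup := (List.Pairwise.take (List.Pairwise.drop hnd))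
  have hget : ∀ (t : ℕ) (ht : t < ((l.drop i).take m).length),
      ((l.drop i).take m)[t] = l[i + t]'(by omega) := by
    intro t ht
    rw [List.getElem_take, List.getElem_drop]
  have hne : ∀ (a b : ℕ) (ha : a < l.length) (hb : b < l.length), a ≠ b → l[a] ≠ l[b] := by
    intro a b ha hb hab h
    exact hab ((List.Nodup.getElem_inj_iff hnd).mp h)
  refine ⟨((l.drop i).take m).toFinset, ?_, ?_⟩
  · apply rec_list hV _ _ (by rw [hlen]; omega) hnd'
    · rw [List.isChain_iff_getElem]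
      intro t ht
      rw [hget t (by omega), hget (t + 1) ht, SimpleGraph.fromEdgeSet_adj]
      refine ⟨?_, hne _ _ _ _ (by omega)⟩
      have h1 := List.isChain_iff_getElem.mp hch (i + t) (by omega)
      exact Finset.mem_coe.mpr (Finset.mem_union_left _ h1)
    · rw [hget _ (by omega), hget _ (by omega), SimpleGraph.fromEdgeSet_adj]
      refine ⟨?_, hne _ _ _ _ (by omega)⟩
      have h1 : i + (((l.drop i).take m).length - 1) = L - 1 - j := by rw [hlen]; omega
      have h2 : l[i + (((l.drop i).take m).length - 1)]'(by omega) = l[L - 1 - j]'(by omega) := by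
        simp only [h1]
      have h3 : l[i + 0]'(by omega) = l[i]'(by omega) := rfl
      rw [h2, h3, Sym2.eq_swap]
      exact Finset.mem_coe.mpr (Finset.mem_union_right _ he)
  · rw [List.toFinset_card_of_nodup hnd', hlen]
    omega

theorem second_round {V : Finset ℝ} (hV : NoRel V) {L k ℓ : ℕ} (hk : 2 * k + 1 ≤ L)
    (hℓ : ℓ + 2 * k ≤ L + 2) (p : ℝ) (hp0 : 0 ≤ p) (hp1 : p ≤ 1) (S1 : Finset (Sym2 V)) :
    EE (pairs V) p (fun S2 => noRec V ℓ (S1 ∪ S2)) ≤ noPath L S1 + (1 - p) ^ (k * k) := by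
  classical
  have hq : 0 ≤ (1 - p) ^ (k * k) := pow_nonneg (by linarith) _
  by_cases hP : HasPath L S1
  · rw [noPath_of hP, zero_add]
    obtain ⟨l0, h0, hnd0, hch0⟩ := hP
    obtain ⟨l, hl⟩ : ∃ l, l = l0.take L := ⟨_, rfl⟩
    have hlen : l.length = L := by rw [hl, List.length_take]; omega
    have hnd : l.Nodup := by rw [hl]; exact List.Pairwise.take hnd0
    have hch : l.IsChain (fun a b => s(a, b) ∈ S1) := by rw [hl]; exact hch0.take L
    have hne : ∀ (a b : ℕ) (ha : a < l.length) (hb : b < l.length), l[a] = l[b] → a = b := by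
      intro a b ha hb h
      exact (List.Nodup.getElem_inj_iff hnd).mp h
    let F : Finset (Sym2 V) := univ.image (fun z : Fin k × Fin k =>
      s(l[(z.1 : ℕ)]'(by have := z.1.2; omega), l[L - 1 - (z.2 : ℕ)]'(by have := z.2.2; omega)))
    have hFcard : #F = k * k := by
      rw [Finset.card_image_of_injective, Finset.card_univ, Fintype.card_prod, Fintype.card_fin]
      intro z w hzw
      have hz1 := z.1.2
      have hz2 := z.2.2
      have hw1 := w.1.2
      have hw2 := w.2.2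
      simp only [Sym2.eq_iff] at hzw
      rcases hzw with ⟨h1, h2⟩ | ⟨h1, h2⟩
      · have h3 := hne _ _ _ _ h1
        have h4 := hne _ _ _ _ h2
        exact Prod.ext (Fin.ext h3) (Fin.ext (by omega))
      · have h3 := hne _ _ _ _ h1
        omega
    have hFP : F ⊆ pairs V := by
      intro e he
      obtain ⟨z, -, rfl⟩ := Finset.mem_image.mp he
      rw [mem_pairs]
      intro h
      have := hne _ _ _ _ h
      have hz1 := z.1.2
      have hz2 := z.2.2
      omega
    have h1 : EE (pairs V) p (fun S2 => noRec V ℓ (S1 ∪ S2)) ≤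
        EE (pairs V) p (fun S2 => if Disjoint S2 F then 1 else 0) := by
      apply EE_mono _ _ hp0 hp1
      intro S2 _
      split_ifs with hd
      · exact noRec_le_one _ _ _
      · rw [Finset.not_disjoint_iff] at hd
        obtain ⟨e, he2, heF⟩ := hd
        obtain ⟨z, -, rfl⟩ := Finset.mem_image.mp heF
        exact (noRec_of (rec_of_hit hV hk hℓ hlen hnd hch z.1.2 z.2.2 he2)).le
    refine h1.trans ?_
    rw [EE_disjoint, Finset.inter_eq_right.mpr hFP, hFcard]
  · have h1 : noPath L S1 = 1 := by unfold noPath; rw [if_neg hP]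
    have h2 : EE (pairs V) p (fun S2 => noRec V ℓ (S1 ∪ S2)) ≤ 1 := by
      have h3 := EE_mono (pairs V) p hp0 hp1 (fun S2 => noRec V ℓ (S1 ∪ S2)) (fun _ => 1)
        (fun A _ => noRec_le_one _ _ _)
      rwa [EE_const] at h3
    linarith

/-- **Finite form.** -/
theorem main_finite {V : Finset ℝ} (hV : NoRel V) (p p1 p2 θ : ℝ) (h : 1 - p = (1 - p1) * (1 - p2))
    (hp10 : 0 ≤ p1) (hp11 : p1 ≤ 1) (hp20 : 0 ≤ p2) (hp21 : p2 ≤ 1) (hθ : 0 ≤ θ)
    {L k ℓ m0 N0 : ℕ} (hk : 2 * k + 1 ≤ L) (hℓ : ℓ + 2 * k ≤ L + 2) (hm0 : 0 < m0)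
    (hN : N0 < m0 * (#V - m0 - L)) :
    EE (pairs V) p (noRec V ℓ) ≤
      Real.exp (θ * (m0 + L)) * (1 - p1 + p1 * Real.exp (-θ)) ^ N0 + (1 - p2) ^ (k * k) := by
  classical
  rw [EE_two_round (pairs V) p p1 p2 h]
  have h1 : EE (pairs V) p1 (fun S1 => EE (pairs V) p2 (fun S2 => noRec V ℓ (S1 ∪ S2))) ≤
      EE (pairs V) p1 (fun S1 => noPath L S1 + (1 - p2) ^ (k * k)) :=
    EE_mono _ _ hp10 hp11 _ _ (fun S1 _ => second_round hV hk hℓ p2 hp20 hp21 S1)
  refine h1.trans ?_
  rw [EE_add, EE_const]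
  have h2 := dfs_path (V := V) p1 θ hp10 hp11 hθ m0 L N0 hm0 (by
    rw [Fintype.card_coe]; exact hN)
  linarith

end Pool.Agent.Helper23.RD
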