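import Pool.Agent.Helper23.LC.Prob

/-!
# Depth first search in a slightly supercritical random graph
-/

set_option autoImplicit false

open Finset

namespace Pool.Agent.Helper23.RD

open Pool.Agent.Helper23.LC

set_option linter.unusedSectionVars false

variable {V : Type*} [Fintype V] [DecidableEq V]

/-- the graph with edge set `Γ` has a path with at least `L` vertices -/
def HasPath (L : ℕ) (Γ : Finset (Sym2 V)) : Prop :=
  ∃ l : List V, L ≤ l.length ∧ l.Nodup ∧ l.IsChain (fun a b => s(a, b) ∈ Γ)

open Classical in
/-- indicator of having no long path -/
noncomputable def noPath (L : ℕ) (Γ : Finset (Sym2 V)) : ℝ := if HasPath L Γ then 0 else 1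

theorem noPath_le_one (L : ℕ) (Γ : Finset (Sym2 V)) : noPath L Γ ≤ 1 := by
  unfold noPath; split_ifs <;> norm_num

theorem noPath_nonneg (L : ℕ) (Γ : Finset (Sym2 V)) : 0 ≤ noPath L Γ := by
  unfold noPath; split_ifs <;> norm_num

theorem noPath_of {L : ℕ} {Γ : Finset (Sym2 V)} (h : HasPath L Γ) : noPath L Γ = 0 := by
  unfold noPath; rw [if_pos h]

/-- the proper pairs -/
def pairs (V : Type*) [Fintype V] [DecidableEq V] : Finset (Sym2 V) :=
  univ.filter (fun e => ¬ e.IsDiag)

theorem mem_pairs {x y : V} : s(x, y) ∈ pairs V ↔ x ≠ y := by
  simp [pairs]

/-- **Depth first search.**  `stk` is the current path, `T` the set of untouched vertices, `S` the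
set of finished vertices, `R` the set of the queried pairs, and `s` a lower bound for the number of
touched vertices. -/
theorem dfs_step (p θ : ℝ) (hp0 : 0 ≤ p) (hp1 : p ≤ 1) (hθ : 0 ≤ θ) (m0 L N0 : ℕ)
    (hN : N0 < m0 * (Fintype.card V - m0 - L)) :
    ∀ (k : ℕ) (stk : List V) (T S : Finset V) (R Γ : Finset (Sym2 V)) (s : ℕ),
      (N0 - #R) * (3 * Fintype.card V + 1) + 2 * #T + stk.length < k →
      stk.Nodup → stk.IsChain (fun a b => s(a, b) ∈ Γ) → (∀ x ∈ stk, x ∉ T) →
      (∀ x ∈ stk, x ∉ S) → Disjoint S T → #S + stk.length + #T = Fintype.card V →
      (∀ x ∈ S, ∀ t ∈ T, s(x, t) ∈ R) → #R ≤ N0 → #S < m0 → s ≤ #S + stk.length →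
      EE (pairs V \ R) p (fun A => noPath L (Γ ∪ A)) ≤
        Real.exp (θ * (m0 + L - s)) * (1 - p + p * Real.exp (-θ)) ^ (N0 - #R) := by
  have hE1 : Real.exp (-θ) ≤ 1 := Real.exp_le_one_iff.mpr (by linarith)
  have hE0 : 0 < Real.exp (-θ) := Real.exp_pos _
  have hb0 : 0 ≤ 1 - p + p * Real.exp (-θ) := by nlinarith
  intro k
  induction k with
  | zero => intro stk T S R Γ s h; exact absurd h (Nat.not_lt_zero _)
  | succ k ih =>
    intro stk T S R Γ s hk hnd hch hdT hdS hST hcard hSR hRN hSm hs
    -- a long stack
    by_cases hlong : L ≤ stk.length
    · have h0 : ∀ A ⊆ pairs V \ R, noPath L (Γ ∪ A) ≤ 0 := by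
        intro A _
        refine (noPath_of ⟨stk, hlong, hnd, ?_⟩).le
        exact hch.imp fun a b h => Finset.mem_union_left _ h
      have h1 := EE_mono (pairs V \ R) p hp0 hp1 _ (fun _ => 0) h0
      rw [EE_const] at h1
      refine h1.trans ?_
      positivity
    push Not at hlong
    have hTpos : 0 < #T := by
      have h1 : 0 < Fintype.card V - m0 - L := by
        by_contra h
        have h2 : Fintype.card V - m0 - L = 0 := by omega
        rw [h2, mul_zero] at hN
        exact absurd hN (Nat.not_lt_zero _)
      omega
    -- no queries left
    by_cases hq : N0 - #R = 0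
    · rw [hq, pow_zero, mul_one]
      have h1 : EE (pairs V \ R) p (fun A => noPath L (Γ ∪ A)) ≤ 1 := by
        have h2 := EE_mono (pairs V \ R) p hp0 hp1 (fun A => noPath L (Γ ∪ A)) (fun _ => 1)
          (fun A _ => noPath_le_one _ _)
        rwa [EE_const] at h2
      refine h1.trans ?_
      rw [← Real.exp_zero]
      apply Real.exp_le_exp.mpr
      apply mul_nonneg hθ
      have h3 : s ≤ m0 + L := by omega
      have h4 : (s : ℝ) ≤ m0 + L := by exact_mod_cast h3
      linarith
    cases stk with
    | nil =>
      obtain ⟨t, ht⟩ := Finset.card_pos.mp hTpos
      have hc : #(T.erase t) + 1 = #T := Finset.card_erase_add_one ht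
      apply ih [t] (T.erase t) S R Γ s
      · simp only [List.length_nil, List.length_cons] at hk ⊢
        omega
      · simp
      · simp
      · intro x hx
        rw [List.mem_singleton] at hx
        rw [hx]
        exact Finset.notMem_erase _ _
      · intro x hx
        rw [List.mem_singleton] at hx
        rw [hx]
        exact fun h => Finset.disjoint_left.mp hST h ht
      · exact hST.mono_right (Finset.erase_subset _ _)
      · simp only [List.length_nil, List.length_cons] at hcard ⊢
        omega
      · intro x hx y hy
        exact hSR x hx y (Finset.mem_of_mem_erase hy)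
      · exact hRN
      · exact hSm
      · simp only [List.length_nil, List.length_cons] at hs ⊢
        omega
    | cons v rest =>
      simp only [List.length_cons] at hk hcard hlong hs
      have hvT : v ∉ T := hdT v (List.mem_cons_self)
      by_cases hex : ∃ t ∈ T, s(v, t) ∉ R
      · -- query the pair `v t`
        obtain ⟨t, ht, htR⟩ := hex
        have hvt : v ≠ t := fun h => hvT (h ▸ ht)
        set e : Sym2 V := s(v, t) with he
        have heP : e ∈ pairs V := mem_pairs.mpr hvt
        have hset : pairs V \ R = insert e (pairs V \ insert e R) := by
          ext x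
          simp only [Finset.mem_sdiff, Finset.mem_insert, not_or]
          constructor
          · rintro ⟨h1, h2⟩
            by_cases hx : x = e
            · exact Or.inl hx
            · exact Or.inr ⟨h1, hx, h2⟩
          · rintro (rfl | ⟨h1, _, h2⟩)
            · exact ⟨heP, htR⟩
            · exact ⟨h1, h2⟩
        have hnot : e ∉ pairs V \ insert e R := by
          rw [Finset.mem_sdiff]
          exact fun h => h.2 (Finset.mem_insert_self _ _)
        have hcR : #(insert e R) = #R + 1 := Finset.card_insert_of_notMem htR
        have hc : #(T.erase t) + 1 = #T := Finset.card_erase_add_one ht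
        rw [hset, EE_insert _ e hnot]
        have hmul : (N0 - #R) * (3 * Fintype.card V + 1)
            = (N0 - (#R + 1)) * (3 * Fintype.card V + 1) + (3 * Fintype.card V + 1) := by
          have : N0 - #R = (N0 - (#R + 1)) + 1 := by omega
          rw [this, Nat.add_mul, one_mul]
        have hTn : #T ≤ Fintype.card V := Finset.card_le_univ T
        -- the edge is present
        have h1 : EE (pairs V \ insert e R) p (fun A => noPath L (Γ ∪ insert e A)) ≤
            Real.exp (θ * (m0 + L - (s + 1 : ℕ))) *
              (1 - p + p * Real.exp (-θ)) ^ (N0 - #(insert e R)) := by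
          have e1 : ∀ A : Finset (Sym2 V), Γ ∪ insert e A = insert e Γ ∪ A := by
            intro A; rw [Finset.union_insert, Finset.insert_union]
          simp only [e1]
          apply ih (t :: v :: rest) (T.erase t) S (insert e R) (insert e Γ) (s + 1)
          · rw [hcR]
            simp only [List.length_cons]
            omega
          · rw [List.nodup_cons]
            exact ⟨fun h => hdT t h ht, hnd⟩
          · rw [List.isChain_cons_cons]
            refine ⟨?_, hch.imp fun a b h => Finset.mem_insert_of_mem h⟩
            rw [Sym2.eq_swap]
            exact Finset.mem_insert_self _ _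
          · intro x hx
            rcases List.mem_cons.mp hx with rfl | h
            · exact Finset.notMem_erase _ _
            · exact fun h2 => hdT x h (Finset.mem_of_mem_erase h2)
          · intro x hx
            rcases List.mem_cons.mp hx with rfl | h
            · exact fun h => Finset.disjoint_left.mp hST h ht
            · exact hdS x h
          · exact hST.mono_right (Finset.erase_subset _ _)
          · simp only [List.length_cons]
            omega
          · intro x hx y hy
            exact Finset.mem_insert_of_mem (hSR x hx y (Finset.mem_of_mem_erase hy))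
          · rw [hcR]; omega
          · exact hSm
          · simp only [List.length_cons]
            omega
        -- the edge is absent
        have h2 : EE (pairs V \ insert e R) p (fun A => noPath L (Γ ∪ A)) ≤
            Real.exp (θ * (m0 + L - s)) *
              (1 - p + p * Real.exp (-θ)) ^ (N0 - #(insert e R)) := by
          apply ih (v :: rest) T S (insert e R) Γ s
          · rw [hcR]
            simp only [List.length_cons]
            omega
          · exact hnd
          · exact hch
          · exact hdT
          · exact hdS
          · exact hST
          · simp only [List.length_cons]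
            omega
          · intro x hx y hy
            exact Finset.mem_insert_of_mem (hSR x hx y hy)
          · rw [hcR]; omega
          · exact hSm
          · simp only [List.length_cons]
            omega
        have h3 : Real.exp (θ * (m0 + L - (s + 1 : ℕ)))
            = Real.exp (θ * (m0 + L - s)) * Real.exp (-θ) := by
          rw [← Real.exp_add]
          congr 1
          push_cast
          ring
        have h4 : N0 - #R = (N0 - #(insert e R)) + 1 := by rw [hcR]; omega
        rw [h4, pow_succ]
        rw [h3] at h1
        calc p * EE (pairs V \ insert e R) p (fun A => noPath L (Γ ∪ insert e A)) +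
              (1 - p) * EE (pairs V \ insert e R) p (fun A => noPath L (Γ ∪ A))
            ≤ p * (Real.exp (θ * (m0 + L - s)) * Real.exp (-θ) *
                (1 - p + p * Real.exp (-θ)) ^ (N0 - #(insert e R))) +
              (1 - p) * (Real.exp (θ * (m0 + L - s)) *
                (1 - p + p * Real.exp (-θ)) ^ (N0 - #(insert e R))) := by
              have h5 : 0 ≤ 1 - p := by linarith
              gcongr
          _ = _ := by ring
      · -- all pairs queried: pop
        push Not at hex
        have hrest := (List.nodup_cons.mp hnd).2
        have hchr : rest.IsChain (fun a b => s(a, b) ∈ Γ) := hch.tail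
        have hvS : v ∉ S := hdS v (List.mem_cons_self)
        have hvr : v ∉ rest := (List.nodup_cons.mp hnd).1
        have hcS : #(insert v S) = #S + 1 := Finset.card_insert_of_notMem hvS
        have hSR' : ∀ x ∈ insert v S, ∀ t ∈ T, s(x, t) ∈ R := by
          intro x hx t ht
          rcases Finset.mem_insert.mp hx with rfl | h
          · exact hex t ht
          · exact hSR x h t ht
        have hST' : Disjoint (insert v S) T := by
          rw [Finset.disjoint_insert_left]
          exact ⟨hvT, hST⟩
        have hprod : #(insert v S) * #T ≤ #R := by
          rw [← Finset.card_product]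
          apply Finset.card_le_card_of_injOn (fun z : V × V => s(z.1, z.2))
          · intro z hz
            rw [Finset.mem_coe, Finset.mem_product] at hz
            exact hSR' z.1 hz.1 z.2 hz.2
          · intro z hz w hw hzw
            rw [Finset.mem_coe, Finset.mem_product] at hz hw
            simp only [Sym2.eq_iff] at hzw
            rcases hzw with ⟨h1, h2⟩ | ⟨h1, h2⟩
            · exact Prod.ext h1 h2
            · exfalso
              exact Finset.disjoint_left.mp hST' hz.1 (h1 ▸ hw.2)
        have hSm' : #(insert v S) < m0 := by
          by_contra hcon
          have h1 : #(insert v S) = m0 := by omega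
          have h2 : Fintype.card V - m0 - L ≤ #T := by omega
          have h3 : m0 * (Fintype.card V - m0 - L) ≤ #R := by
            calc m0 * (Fintype.card V - m0 - L) ≤ m0 * #T := Nat.mul_le_mul_left _ h2
              _ = #(insert v S) * #T := by rw [h1]
              _ ≤ #R := hprod
          omega
        apply ih rest T (insert v S) R Γ s
        · omega
        · exact hrest
        · exact hchr
        · intro x hx
          exact hdT x (List.mem_cons_of_mem _ hx)
        · intro x hx h
          rcases Finset.mem_insert.mp h with rfl | h2
          · exact hvr hx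
          · exact hdS x (List.mem_cons_of_mem _ hx) h2
        · exact hST'
        · omega
        · exact hSR'
        · exact hRN
        · exact hSm'
        · omega

/-- The random graph has a path with `L` vertices. -/
theorem dfs_path (p θ : ℝ) (hp0 : 0 ≤ p) (hp1 : p ≤ 1) (hθ : 0 ≤ θ) (m0 L N0 : ℕ) (hm0 : 0 < m0)
    (hN : N0 < m0 * (Fintype.card V - m0 - L)) :
    EE (pairs V) p (fun A => noPath L A) ≤
      Real.exp (θ * (m0 + L)) * (1 - p + p * Real.exp (-θ)) ^ N0 := by
  have h := dfs_step (V := V) p θ hp0 hp1 hθ m0 L N0 hN _ [] univ ∅ ∅ ∅ 0 (Nat.lt_succ_self _)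
    (by simp) (by simp) (by simp) (by simp) (by simp) (by simp) (by simp) (by simp)
    (by simpa using hm0) (by simp)
  simpa using h

end Pool.Agent.Helper23.RD
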