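import Pool.Agent.Helper23.RD.Comb

/-!
# The numbers
-/

set_option autoImplicit false

open Finset Filter Topology

namespace Pool.Agent.Helper23.RD

open Pool.Agent.Helper23.LC

theorem pow_bound (p θ : ℝ) (hp0 : 0 ≤ p) (hp1 : p ≤ 1) (hθ : 0 ≤ θ) (N : ℕ) :
    (1 - p + p * Real.exp (-θ)) ^ N ≤ Real.exp (-(p * N * (θ - θ ^ 2))) := by
  have h1 : Real.exp (-θ) ≤ 1 - (θ - θ ^ 2) := by
    have h2 : 1 + θ ≤ Real.exp θ := by linarith [Real.add_one_le_exp θ]
    rw [Real.exp_neg]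
    have h3 : (Real.exp θ)⁻¹ ≤ (1 + θ)⁻¹ := inv_anti₀ (by linarith) h2
    refine h3.trans ?_
    rw [inv_le_iff_one_le_mul₀ (by linarith)]
    nlinarith [pow_nonneg hθ 3]
  have h2 : 1 - p + p * Real.exp (-θ) ≤ Real.exp (-(p * (θ - θ ^ 2))) := by
    have h3 : 1 - p + p * Real.exp (-θ) ≤ 1 - p * (θ - θ ^ 2) := by nlinarith
    refine h3.trans ?_
    have := Real.add_one_le_exp (-(p * (θ - θ ^ 2)))
    linarith
  have h0 : 0 ≤ 1 - p + p * Real.exp (-θ) := by
    have := Real.exp_pos (-θ)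
    nlinarith
  calc (1 - p + p * Real.exp (-θ)) ^ N ≤ (Real.exp (-(p * (θ - θ ^ 2)))) ^ N :=
        pow_le_pow_left₀ h0 h2 N
    _ = Real.exp (-(p * N * (θ - θ ^ 2))) := by
        rw [← Real.exp_nat_mul]
        congr 1
        ring

/-- **Explicit form.** -/
theorem main_explicit {V : Finset ℝ} (hV : NoRel V) (d : ℝ) (hd0 : 0 < d) (hd : d ≤ 1 / 4)
    (hbig : 128 ≤ d ^ 2 * #V) {ℓ : ℕ} (hℓ : (ℓ : ℝ) ≤ d ^ 2 * #V / 96 + 1) :
    EE (pairs V) ((1 + 2 * d) / #V) (noRec V ℓ) ≤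
      Real.exp (-(d ^ 3 * #V / 4096)) + Real.exp (-(d ^ 5 * #V / 147456)) := by
  obtain ⟨n, hn⟩ : ∃ n, n = #V := ⟨_, rfl⟩
  rw [← hn] at hbig hℓ ⊢
  have hd2 : d ^ 2 ≤ 1 / 16 := by nlinarith
  have hnb : (2048 : ℝ) ≤ n := by nlinarith [Nat.cast_nonneg (α := ℝ) n]
  have hn0 : (0 : ℝ) < n := by linarith
  have hnN : 2048 ≤ n := by exact_mod_cast hnb
  set L : ℕ := ⌊d ^ 2 * n / 16⌋₊ with hL
  set m0 : ℕ := ⌊d * n / 2⌋₊ with hm0
  set k : ℕ := ⌊d ^ 2 * n / 96⌋₊ with hk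
  have hL1 : (L : ℝ) ≤ d ^ 2 * n / 16 := Nat.floor_le (by positivity)
  have hL2 : d ^ 2 * n / 16 < L + 1 := Nat.lt_floor_add_one _
  have hm1 : (m0 : ℝ) ≤ d * n / 2 := Nat.floor_le (by positivity)
  have hm2 : d * n / 2 < m0 + 1 := Nat.lt_floor_add_one _
  have hk1 : (k : ℝ) ≤ d ^ 2 * n / 96 := Nat.floor_le (by positivity)
  have hk2 : d ^ 2 * n / 96 < k + 1 := Nat.lt_floor_add_one _
  have hdn : 512 ≤ d * n := by
    have h1 : d ^ 2 * n = d * (d * n) := by ring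
    rw [h1] at hbig
    have h2 : 0 ≤ d * n := by positivity
    nlinarith
  have hm0pos : 0 < m0 := by
    have h1 : (0 : ℝ) < m0 := by linarith
    exact_mod_cast h1
  have hsum : m0 + L + 1 ≤ n := by
    have h1 : (m0 : ℝ) + L + 1 ≤ n := by nlinarith
    exact_mod_cast h1
  have hyc : ((n - m0 - L : ℕ) : ℝ) = n - m0 - L := by
    rw [Nat.cast_sub (by omega), Nat.cast_sub (by omega)]
  obtain ⟨N0, hN0⟩ : ∃ N0, N0 = m0 * (n - m0 - L) - 1 := ⟨_, rfl⟩
  have hprod : 0 < m0 * (n - m0 - L) := Nat.mul_pos hm0pos (by omega)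
  have hN0lt : N0 < m0 * (n - m0 - L) := by omega
  have hN0c : (N0 : ℝ) = m0 * (n - m0 - L) - 1 := by
    rw [hN0, Nat.cast_sub (by omega), Nat.cast_mul, hyc, Nat.cast_one]
  set p1 : ℝ := (1 + d) / n with hp1
  have hp10 : 0 < p1 := by positivity
  have hp11 : p1 ≤ 1 / 2 := by
    rw [hp1, div_le_iff₀ hn0]
    linarith
  set p2 : ℝ := (d / n) / (1 - p1) with hp2
  have hdnn : d / n ≤ 1 / 2 := by
    rw [div_le_iff₀ hn0]
    linarith
  have hp2l : d / n ≤ p2 := by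
    rw [hp2, le_div_iff₀ (by linarith)]
    have : 0 ≤ d / n * p1 := by positivity
    linarith
  have hp21 : p2 ≤ 1 := by
    rw [hp2, div_le_one (by linarith)]
    linarith
  have hp20 : 0 ≤ p2 := le_trans (by positivity) hp2l
  have htwo : 1 - (1 + 2 * d) / n = (1 - p1) * (1 - p2) := by
    rw [hp2]
    have h1 : 1 - p1 ≠ 0 := by linarith
    field_simp
    rw [hp1]
    field_simp
    ring
  set θ : ℝ := d / 64 with hθ
  have hθ0 : 0 < θ := by positivity
  have h2k : 2 * k + 1 ≤ L := by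
    have h1 : (2 * k + 1 : ℝ) ≤ L := by nlinarith
    exact_mod_cast h1
  have hℓk : ℓ + 2 * k ≤ L + 2 := by
    have h1 : (ℓ + 2 * k : ℝ) ≤ L + 2 := by nlinarith
    exact_mod_cast h1
  have hmain := main_finite hV ((1 + 2 * d) / n) p1 p2 θ htwo hp10.le (by linarith) hp20 hp21
    hθ0.le h2k hℓk hm0pos (by rw [← hn]; exact hN0lt)
  refine hmain.trans ?_
  -- the product `N0 p1`
  have hlow : (m0 : ℝ) + L + d ^ 2 * n / 32 ≤ p1 * N0 := by
    rw [hN0c, hp1]
    have h1 : (1 + d / 4) * n ≤ (1 + d) * (n - m0 - L) := by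
      have h2 : (n : ℝ) * (1 - d / 2 - d ^ 2 / 16) ≤ n - m0 - L := by nlinarith
      have h3 : (1 + d / 4) ≤ (1 + d) * (1 - d / 2 - d ^ 2 / 16) := by nlinarith [pow_pos hd0 3]
      calc (1 + d / 4) * n ≤ (1 + d) * (1 - d / 2 - d ^ 2 / 16) * n := by gcongr
        _ = (1 + d) * (n * (1 - d / 2 - d ^ 2 / 16)) := by ring
        _ ≤ _ := by gcongr
    have h4 : (1 + d) / n * (m0 * (n - m0 - L) - 1)
        = m0 * ((1 + d) * (n - m0 - L)) / n - (1 + d) / n := by
      field_simp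
    rw [h4]
    have h5 : m0 * ((1 + d / 4) * n) / n ≤ m0 * ((1 + d) * (n - m0 - L)) / n := by gcongr
    have h6 : m0 * ((1 + d / 4) * n) / n = m0 * (1 + d / 4) := by field_simp
    rw [h6] at h5
    have h7 : (1 + d) / n ≤ 1 / 2 := hp11
    have h8 : (d * n / 2 - 1) * (d / 4) ≤ m0 * (d / 4) := by
      have : d * n / 2 - 1 ≤ m0 := by linarith
      gcongr
    nlinarith
  have hup : p1 * N0 ≤ d * n := by
    rw [hN0c, hp1]
    have h1 : (1 + d) / n * (m0 * (n - m0 - L) - 1) ≤ (1 + d) / n * (m0 * n) := by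
      gcongr
      have h2 : (0 : ℝ) ≤ m0 := by positivity
      have h3 : (0 : ℝ) ≤ L := by positivity
      nlinarith
    refine h1.trans ?_
    have h2 : (1 + d) / n * (m0 * n) = (1 + d) * m0 := by field_simp
    rw [h2]
    nlinarith
  have hP1 : Real.exp (θ * (m0 + L)) * (1 - p1 + p1 * Real.exp (-θ)) ^ N0 ≤
      Real.exp (-(d ^ 3 * n / 4096)) := by
    calc Real.exp (θ * (m0 + L)) * (1 - p1 + p1 * Real.exp (-θ)) ^ N0
        ≤ Real.exp (θ * (m0 + L)) * Real.exp (-(p1 * N0 * (θ - θ ^ 2))) := by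
          gcongr
          exact pow_bound p1 θ hp10.le (by linarith) hθ0.le N0
      _ = Real.exp (θ * (m0 + L) + -(p1 * N0 * (θ - θ ^ 2))) := by rw [Real.exp_add]
      _ ≤ _ := by
          apply Real.exp_le_exp.mpr
          have h1 : θ * (m0 + L) + -(p1 * N0 * (θ - θ ^ 2))
              = -(θ * (p1 * N0 - (m0 + L))) + θ ^ 2 * (p1 * N0) := by ring
          have h2 : θ * (d ^ 2 * n / 32) ≤ θ * (p1 * N0 - (m0 + L)) := by
            gcongr; linarith
          have h3 : θ ^ 2 * (p1 * N0) ≤ θ ^ 2 * (d * n) := by gcongr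
          rw [h1]
          have h4 : -(θ * (d ^ 2 * n / 32)) + θ ^ 2 * (d * n) = -(d ^ 3 * n / 4096) := by
            rw [hθ]; ring
          linarith
  have hP2 : (1 - p2) ^ (k * k) ≤ Real.exp (-(d ^ 5 * n / 147456)) := by
    have h1 : 1 - p2 ≤ Real.exp (-p2) := by
      have := Real.add_one_le_exp (-p2)
      linarith
    calc (1 - p2) ^ (k * k) ≤ (Real.exp (-p2)) ^ (k * k) :=
          pow_le_pow_left₀ (by linarith) h1 _
      _ = Real.exp (-(p2 * (k * k : ℕ))) := by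
          rw [← Real.exp_nat_mul]
          congr 1
          ring
      _ ≤ _ := by
          apply Real.exp_le_exp.mpr
          have h2 : d ^ 2 * n / 384 ≤ k := by linarith
          have h3 : (d / n) * ((d ^ 2 * n / 384) * (d ^ 2 * n / 384)) ≤ p2 * (k * k) := by gcongr
          have h4 : (d / n) * ((d ^ 2 * n / 384) * (d ^ 2 * n / 384)) = d ^ 5 * n / 147456 := by
            field_simp
            norm_num
          rw [h4] at h3
          push_cast
          linarith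
  linarith

end Pool.Agent.Helper23.RD
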